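import Pool.Agent.Q225.PK.Sing

set_option autoImplicit false

/-!
# The exponent `p*(n²)` is `0`

The model (in `Pool/Agent/Q225/PK/Model.lean`) is a uniform real random access
machine without floor function. The memory consists of arrays of real numbers. A program is a finite
text, a command `c : Cmd`, which does not depend on `n`. Commands are `0`, `1`, copy, `+`, `-`,
`*`, `/` for the contents of cells, composition, the test `x ≤ y` for the contents of two cells, and
loops `for v = 0, …, N - 1`, where `N` and the addresses of the cells are expressions in the loop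
variables (`+`, `-`, `*` of natural numbers). The command is executed again and again (`after`), with
the variable `0` equal to `n` and the variable `1` equal to the number of the round, until the number
in cell `(0, 0)` of array 4 is positive (`EndsAt`). The numbers are exact. `cost` counts every
operation, copy and comparison and every round of a loop as one step, `time` is the number of
steps of the whole execution. The input (`input`) is the matrix (array 0), the vector (array 1) and
`ε` (array 2), the output (`outp`) is array 3. `nrm` is the Euclidean norm, `sv A i` is the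
`(i + 1)`-st singular value (Mathlib's `LinearMap.singularValues`), and `kapE p A` is the
`p`-averaged condition number.

The algorithm. Let `G = A / ∑ |a_ij|` and `R = 1 - Gᵀ G`, so that `0 ≤ R ≤ 1`. In round `L` the
matrices `R, R ^ 2, R ^ 4, …, R ^ (2 ^ L)` are computed with `12 L + 8` bits after the binary point,
and `u := (1 + R ^ (2 ^ k)) u` is iterated, starting with `Gᵀ b`; the limit is `∑ |a_ij|` times the
solution. The point is that the product of two matrices of integers with `w` bits takes only
`O(n ^ 2 w)` operations: a row of the second matrix is packed into one number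
`∑ V_jl 2 ^ (w l)`, so that a row of the product is obtained in packed form by `n` multiplications
and `n` additions, and its entries are read off by comparisons, one bit after the other. The test at
the end of the round guarantees the accuracy for all inputs.
-/

namespace Pool.Agent.Results.MP_2781e4_lc.ExponentZero

open Matrix Pool.Agent.Q225.PK

/-- The program `c` solves the invertible system `A x = b` to accuracy `ε` in at most `T` steps. -/
def Solves (c : Cmd) {n : ℕ} (A : Matrix (Fin n) (Fin n) ℝ) (b : Fin n → ℝ) (ε T : ℝ) : Prop :=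
  ∃ t, EndsAt c n (input A b ε) t ∧
    nrm (outp n (after c n (input A b ε) t) - A⁻¹ *ᵥ b) ≤ ε * nrm (A⁻¹ *ᵥ b) ∧
    (time c n (input A b ε) t : ℝ) ≤ T

/-- The exponent `p` is achievable with the cost measure `n ^ 2`: some (deterministic) program
solves every invertible system with `n ^ 2 κ_p(A)` operations, up to a constant and a fixed
power of `1 + log n + log (1 / ε)`. -/
def Achievable (p : ENNReal) : Prop :=
  ∃ (c : Cmd) (C : ℝ) (k : ℕ), ∀ (n : ℕ) (A : Matrix (Fin n) (Fin n) ℝ) (b : Fin n → ℝ) (ε : ℝ),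
    1 ≤ n → A.det ≠ 0 → 0 < ε → ε < 1 →
      Solves c A b ε
        (C * (1 + Real.log n + Real.log (1 / ε)) ^ k * ((n : ℝ) ^ 2 * kapE p A))

theorem log_cube {K : ℝ} (hK : 1 ≤ K) : (1 + Real.log K) ^ 3 ≤ 27 * K := by
  have h0 : 0 < K := by linarith
  have hl : 0 ≤ Real.log K := Real.log_nonneg hK
  have h1 : Real.log K / 3 + 1 ≤ Real.exp (Real.log K / 3) := Real.add_one_le_exp _
  have h2 : (Real.exp (Real.log K / 3)) ^ 3 = K := by
    rw [← Real.exp_nat_mul]
    push_cast
    rw [mul_div_cancel₀ _ (by norm_num), Real.exp_log h0]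
  have h3 : 1 + Real.log K ≤ 3 * Real.exp (Real.log K / 3) := by linarith
  calc (1 + Real.log K) ^ 3 ≤ (3 * Real.exp (Real.log K / 3)) ^ 3 :=
        pow_le_pow_left₀ (by linarith) h3 3
    _ = 27 * K := by rw [mul_pow, h2]; norm_num

theorem bound {n : ℕ} (hn : 1 ≤ n) (ε : ℝ) (hε : 0 < ε) (hε1 : ε < 1) (K Q q : ℝ)
    (hK : 1 ≤ K) (hq : 0 ≤ q) (hQ : Q ≤ q * Real.log n + Real.log K)
    (hQ0 : 0 ≤ Real.log n + Real.log (1 / ε) + Q) :
    6404 * (n : ℝ) ^ 2 * (8 * (1 + Real.log n + Real.log (1 / ε) + Q)) ^ 3 ≤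
      (6404 * 512 * 27 * (q + 1) ^ 3) * (1 + Real.log n + Real.log (1 / ε)) ^ 3 *
        ((n : ℝ) ^ 2 * K) := by
  have hn0 : (1 : ℝ) ≤ n := by exact_mod_cast hn
  have hln : 0 ≤ Real.log n := Real.log_nonneg hn0
  have hle : 0 ≤ Real.log (1 / ε) := Real.log_nonneg ((one_le_div hε).mpr hε1.le)
  have hlK : 0 ≤ Real.log K := Real.log_nonneg hK
  have h1 : 1 + Real.log n + Real.log (1 / ε) + Q ≤
      (q + 1) * (1 + Real.log n + Real.log (1 / ε)) * (1 + Real.log K) := by
    have e : (q + 1) * (1 + Real.log n + Real.log (1 / ε)) * (1 + Real.log K) =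
        (1 + Real.log n + Real.log (1 / ε)) + q * Real.log n + Real.log K +
        (q * (1 + Real.log (1 / ε)) + q * (1 + Real.log n + Real.log (1 / ε)) * Real.log K +
          (Real.log n + Real.log (1 / ε)) * Real.log K) := by ring
    have h2 : 0 ≤ q * (1 + Real.log (1 / ε)) + q * (1 + Real.log n + Real.log (1 / ε)) * Real.log K +
          (Real.log n + Real.log (1 / ε)) * Real.log K := by positivity
    linarith
  have h3 : (1 + Real.log n + Real.log (1 / ε) + Q) ^ 3 ≤
      ((q + 1) * (1 + Real.log n + Real.log (1 / ε)) * (1 + Real.log K)) ^ 3 :=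
    pow_le_pow_left₀ (by linarith) h1 3
  calc 6404 * (n : ℝ) ^ 2 * (8 * (1 + Real.log n + Real.log (1 / ε) + Q)) ^ 3
      = 6404 * (n : ℝ) ^ 2 * 512 * (1 + Real.log n + Real.log (1 / ε) + Q) ^ 3 := by ring
    _ ≤ 6404 * (n : ℝ) ^ 2 * 512 *
        ((q + 1) * (1 + Real.log n + Real.log (1 / ε)) * (1 + Real.log K)) ^ 3 :=
        mul_le_mul_of_nonneg_left h3 (by positivity)
    _ = (6404 * (n : ℝ) ^ 2 * 512 * (q + 1) ^ 3 *
        (1 + Real.log n + Real.log (1 / ε)) ^ 3) * (1 + Real.log K) ^ 3 := by ring
    _ ≤ (6404 * (n : ℝ) ^ 2 * 512 * (q + 1) ^ 3 *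
        (1 + Real.log n + Real.log (1 / ε)) ^ 3) * (27 * K) :=
        mul_le_mul_of_nonneg_left (log_cube hK) (by positivity)
    _ = _ := by ring

/-- (1) There are a program and a constant `C` such that the program solves every invertible `n × n`
system to every accuracy `ε` in at most `C n ^ 2 (1 + log n + log (1 / ε) + log κ(A)) ^ 3` steps,
where `κ(A)` is the condition number `σ₁ / σ_n`.
(2) All exponents `0 < p ≤ ∞` are achievable with the cost measure `n ^ 2`, so the infimum of the
achievable exponents is `0`. -/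
theorem result :
    (∃ (c : Cmd) (C : ℝ), ∀ (n : ℕ) (A : Matrix (Fin n) (Fin n) ℝ) (b : Fin n → ℝ) (ε : ℝ),
      1 ≤ n → A.det ≠ 0 → 0 < ε → ε < 1 →
        Solves c A b ε (C * (n : ℝ) ^ 2 *
          (1 + Real.log n + Real.log (1 / ε) + Real.log (sv A 0 / sv A (n - 1))) ^ 3)) ∧
    (∀ p : ENNReal, 0 < p → Achievable p) ∧
    sInf {p : ENNReal | 0 < p ∧ Achievable p} = 0 := by
  have hall : ∀ p : ENNReal, 0 < p → Achievable p := by
    intro p hp
    -- the common form: a lower bound for the averaged condition number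
    have key : ∃ q : ℝ, 0 ≤ q ∧ ∀ (n : ℕ) (A : Matrix (Fin n) (Fin n) ℝ), 1 ≤ n → A.det ≠ 0 →
        1 ≤ kapE p A ∧ Real.log (absSum A / sv A (n - 1)) ≤ q * Real.log n + Real.log (kapE p A) := by
      by_cases hpt : p = ⊤
      · refine ⟨2, by norm_num, fun n A hn hA => ?_⟩
        have h1 := one_le_ratio A hn hA 0 hn
        rw [kapE, if_pos hpt]
        refine ⟨h1, ?_⟩
        have hn0 : (1 : ℝ) ≤ n := by exact_mod_cast hn
        have hpos := sv_pos A hn hA
        have hs := absSum_pos A hn hA
        have h2 : absSum A / sv A (n - 1) ≤ (n : ℝ) ^ 2 * (sv A 0 / sv A (n - 1)) := by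
          rw [mul_div_assoc']
          exact div_le_div_of_nonneg_right (absSum_le A) hpos.le
        have h3 := Real.log_le_log (div_pos hs hpos) h2
        rw [Real.log_mul (by positivity) (by positivity), Real.log_pow] at h3
        exact_mod_cast h3
      · have hp' : 0 < p.toReal := ENNReal.toReal_pos hp.ne' hpt
        refine ⟨2 + 1 / p.toReal, by positivity, fun n A hn hA => ?_⟩
        rw [kapE, if_neg hpt]
        exact ⟨one_le_kap A hn hA _ hp', log_ratio A hn hA _ hp'⟩
    obtain ⟨q, hq, hkey⟩ := key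
    refine ⟨roundCmd, 6404 * 512 * 27 * (q + 1) ^ 3, 3, fun n A b ε hn hA hε hε1 => ?_⟩
    obtain ⟨t, ht, htime⟩ := ends A b ε hn hA hε hε1
    refine ⟨t, ht, (correct A b ε hn hA hε hε1 t ht).1, ?_⟩
    obtain ⟨hK, hlog⟩ := hkey n A hn hA
    have hpos := sv_pos A hn hA
    refine (htime (sv A (n - 1)) hpos (sv_last A)).trans ?_
    have hn0 : (1 : ℝ) ≤ n := by exact_mod_cast hn
    have hs1 : 1 ≤ absSum A / sv A (n - 1) := by
      rw [one_le_div hpos]
      have h1 := sv_last A (Pi.single ⟨0, hn⟩ 1)
      have h2 := op_absSum A (absSum_pos A hn hA) (Pi.single ⟨0, hn⟩ 1)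
      have h3 : 0 < nrm (Pi.single (⟨0, hn⟩ : Fin n) (1 : ℝ) : Fin n → ℝ) := nrm_pos (by simp)
      exact le_of_mul_le_mul_right (h1.trans h2) h3
    exact bound hn ε hε hε1 (kapE p A) _ q hK hq hlog (by
      have h1 := Real.log_nonneg hn0
      have h2 := Real.log_nonneg ((one_le_div hε).mpr hε1.le)
      have h3 := Real.log_nonneg hs1
      linarith)
  refine ⟨⟨roundCmd, 6404 * 512 * 27, fun n A b ε hn hA hε hε1 => ?_⟩, hall, ?_⟩
  · obtain ⟨t, ht, htime⟩ := ends A b ε hn hA hε hε1
    refine ⟨t, ht, (correct A b ε hn hA hε hε1 t ht).1, ?_⟩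
    have hpos := sv_pos A hn hA
    refine (htime (sv A (n - 1)) hpos (sv_last A)).trans ?_
    have hn0 : (1 : ℝ) ≤ n := by exact_mod_cast hn
    have hr := one_le_ratio A hn hA 0 hn
    have hs := absSum_pos A hn hA
    have h2 : absSum A / sv A (n - 1) ≤ (n : ℝ) ^ 2 * (sv A 0 / sv A (n - 1)) := by
      rw [mul_div_assoc']
      exact div_le_div_of_nonneg_right (absSum_le A) hpos.le
    have h3 := Real.log_le_log (div_pos hs hpos) h2
    rw [Real.log_mul (by positivity) (by positivity), Real.log_pow] at h3
    push_cast at h3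
    have hln : 0 ≤ Real.log n := Real.log_nonneg hn0
    have hle : 0 ≤ Real.log (1 / ε) := Real.log_nonneg ((one_le_div hε).mpr hε1.le)
    have hlr : 0 ≤ Real.log (sv A 0 / sv A (n - 1)) := Real.log_nonneg hr
    have hs1 : 1 ≤ absSum A / sv A (n - 1) := by
      rw [one_le_div hpos]
      have h1 := sv_last A (Pi.single ⟨0, hn⟩ 1)
      have h2 := op_absSum A (absSum_pos A hn hA) (Pi.single ⟨0, hn⟩ 1)
      have h3 : 0 < nrm (Pi.single (⟨0, hn⟩ : Fin n) (1 : ℝ) : Fin n → ℝ) := nrm_pos (by simp)
      exact le_of_mul_le_mul_right (h1.trans h2) h3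
    have hs2 := Real.log_nonneg hs1
    calc 6404 * (n : ℝ) ^ 2 * (8 * (1 + Real.log n + Real.log (1 / ε) +
          Real.log (absSum A / sv A (n - 1)))) ^ 3
        ≤ 6404 * (n : ℝ) ^ 2 * (8 * (3 * (1 + Real.log n + Real.log (1 / ε) +
          Real.log (sv A 0 / sv A (n - 1))))) ^ 3 := by
          refine mul_le_mul_of_nonneg_left ?_ (by positivity)
          exact pow_le_pow_left₀ (by linarith) (by linarith) 3
      _ = _ := by ring
  · refine le_antisymm ?_ bot_le
    refine ENNReal.le_of_forall_pos_le_add fun δ hδ _ => ?_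
    rw [zero_add]
    exact sInf_le ⟨by exact_mod_cast hδ, hall _ (by exact_mod_cast hδ)⟩

end Pool.Agent.Results.MP_2781e4_lc.ExponentZero
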